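import Mathlib

/-!
# The slowest-chain problem for ν-chains on grids (MP_00a158, Q1)

For all `m ≥ n ≥ 1` the antidiagonal chain has the largest weight among all ν-chains.
-/

namespace Pool.Agent.Results.MP_00a158_co.AntidiagonalChain

open Finset

/-- The cells of the `m × n` grid. Coordinates start at `0`. -/
abbrev Cell (m n : ℕ) : Type := Fin m × Fin n

/-- Two cells are adjacent if `|i - i'| + |j - j'| = 1`. -/
def Adj {m n : ℕ} (p q : Cell m n) : Prop :=
  |((p.1 : ℕ) : ℤ) - ((q.1 : ℕ) : ℤ)| + |((p.2 : ℕ) : ℤ) - ((q.2 : ℕ) : ℤ)| = 1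

/-- Order ideals: down-sets for the coordinatewise order. -/
def IsIdeal {m n : ℕ} (A : Finset (Cell m n)) : Prop :=
  ∀ p ∈ A, ∀ q : Cell m n, q.1 ≤ p.1 → q.2 ≤ p.2 → q ∈ A

open Classical in
/-- The closed neighbourhood of a set of cells. -/
noncomputable def nbhd {m n : ℕ} (A : Finset (Cell m n)) : Finset (Cell m n) :=
  univ.filter (fun q => q ∈ A ∨ ∃ p ∈ A, Adj p q)

/-- `ν(s)`, the least size of the closed neighbourhood of an order ideal of size `s`. -/
noncomputable def nu (m n s : ℕ) : ℕ :=
  sInf {t : ℕ | ∃ A : Finset (Cell m n), IsIdeal A ∧ A.card = s ∧ (nbhd A).card = t}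

/-- `c 0, …, c L` is a ν-chain. -/
def IsNuChain (m n L : ℕ) (c : ℕ → ℕ) : Prop :=
  (∀ l, l ≤ L → c l ≤ m * n) ∧ ∀ l, l < L → nu m n (c l) ≤ c (l + 1)

/-- The weight of `c 0, …, c L`. -/
def weight (m n L : ℕ) (c : ℕ → ℕ) : ℕ :=
  ∑ l ∈ range (L + 1), min (c l) (m * n - c l)

/-- The antidiagonal chain (`i + j ≤ l` for coordinates starting at `0`, that is `i + j ≤ l + 2`
for coordinates starting at `1`). -/
def antidiagonal (m n l : ℕ) : ℕ :=
  (univ.filter (fun p : Cell m n => p.1.val + p.2.val ≤ l)).card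

/-! ### Isoperimetry -/

section iso

variable {m n : ℕ}

open Classical in
/-- The boundary. -/
noncomputable def bd (A : Finset (Cell m n)) : Finset (Cell m n) := nbhd A \ A

lemma mem_bd {A : Finset (Cell m n)} {q : Cell m n} :
    q ∈ bd A ↔ q ∉ A ∧ ∃ p ∈ A, Adj p q := by
  classical
  unfold bd nbhd
  rw [mem_sdiff, mem_filter]
  constructor
  · rintro ⟨⟨-, h⟩, h2⟩
    exact ⟨h2, h.resolve_left h2⟩
  · rintro ⟨h1, h2⟩
    exact ⟨⟨mem_univ _, Or.inr h2⟩, h1⟩

lemma card_nbhd (A : Finset (Cell m n)) : (nbhd A).card = A.card + (bd A).card := by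
  classical
  unfold bd
  have hsub : A ⊆ nbhd A := by
    intro p hp
    unfold nbhd
    rw [mem_filter]
    exact ⟨mem_univ _, Or.inl hp⟩
  rw [card_sdiff_of_subset hsub]
  have := card_le_card hsub
  omega

lemma row_step {A : Finset (Cell m n)} (i : Fin m) (j c1 : Fin n)
    (hj : (i, j) ∈ A) (hA : IsIdeal A) (hc : (i, c1) ∉ A) :
    ∃ c : Fin n, j < c ∧ c ≤ c1 ∧ (i, c) ∈ bd A := by
  classical
  have hne : (univ.filter (fun c : Fin n => (i, c) ∉ A)).Nonempty := ⟨c1, by simp [hc]⟩
  obtain ⟨c, hcmem, hmin⟩ := exists_min_image _ (fun c : Fin n => c) hne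
  rw [mem_filter] at hcmem
  have hjc : j < c := by
    by_contra h
    push Not at h
    exact hcmem.2 (hA _ hj _ le_rfl h)
  refine ⟨c, hjc, hmin c1 (by simp [hc]), ?_⟩
  rw [mem_bd]
  refine ⟨hcmem.2, (i, ⟨c.val - 1, by have := c.2; omega⟩), ?_, ?_⟩
  · by_contra h
    have := hmin ⟨c.val - 1, by have := c.2; omega⟩ (by simp [h])
    rw [Fin.le_def] at this
    simp only at this
    rw [Fin.lt_def] at hjc
    omega
  · unfold Adj
    rw [Fin.lt_def] at hjc
    have h1 : ((c.val - 1 : ℕ) : ℤ) = (c.val : ℤ) - 1 := by omega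
    simp only [sub_self, abs_zero, zero_add, h1]
    rw [show (c.val : ℤ) - 1 - (c.val : ℤ) = -1 by ring]
    simp

lemma col_step {A : Finset (Cell m n)} (i r1 : Fin m) (j : Fin n)
    (hj : (i, j) ∈ A) (hA : IsIdeal A) (hc : (r1, j) ∉ A) :
    ∃ r : Fin m, i < r ∧ r ≤ r1 ∧ (r, j) ∈ bd A := by
  classical
  have hne : (univ.filter (fun r : Fin m => (r, j) ∉ A)).Nonempty := ⟨r1, by simp [hc]⟩
  obtain ⟨c, hcmem, hmin⟩ := exists_min_image _ (fun c : Fin m => c) hne
  rw [mem_filter] at hcmem
  have hjc : i < c := by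
    by_contra h
    push Not at h
    exact hcmem.2 (hA _ hj _ h le_rfl)
  refine ⟨c, hjc, hmin r1 (by simp [hc]), ?_⟩
  rw [mem_bd]
  refine ⟨hcmem.2, (⟨c.val - 1, by have := c.2; omega⟩, j), ?_, ?_⟩
  · by_contra h
    have := hmin ⟨c.val - 1, by have := c.2; omega⟩ (by simp [h])
    rw [Fin.le_def] at this
    simp only at this
    rw [Fin.lt_def] at hjc
    omega
  · unfold Adj
    rw [Fin.lt_def] at hjc
    have h1 : ((c.val - 1 : ℕ) : ℤ) = (c.val : ℤ) - 1 := by omega
    simp only [sub_self, abs_zero, add_zero, h1]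
    rw [show (c.val : ℤ) - 1 - (c.val : ℤ) = -1 by ring]
    simp

lemma case_one {A : Finset (Cell m n)} (hA : IsIdeal A) (z : Fin m) (z' : Fin n) (t : Fin m)
    (t' : Fin n) (hz : ∀ i, z ≤ i) (hz' : ∀ j, z' ≤ j) (h1 : (z, t') ∉ A) (h2 : (t, z') ∉ A)
    {p : Cell m n} (hp : p ∈ A) : p.1.val + p.2.val + 2 ≤ (bd A).card := by
  classical
  obtain ⟨i, j⟩ := p
  have hrow : i.val + 1 ≤ ((bd A).filter (fun q => j < q.2)).card := by
    calc i.val + 1 = (Iic i).card := by simp
      _ ≤ (((bd A).filter (fun q => j < q.2)).image Prod.fst).card := by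
        apply card_le_card
        intro i' hi'
        rw [mem_Iic] at hi'
        obtain ⟨c, hc, -, hcb⟩ := row_step i' j t' (hA _ hp _ hi' le_rfl) hA
          (fun h => h1 (hA _ h _ (hz _) le_rfl))
        rw [mem_image]
        exact ⟨(i', c), by rw [mem_filter]; exact ⟨hcb, hc⟩, rfl⟩
      _ ≤ _ := card_image_le
  have hcol : j.val + 1 ≤ ((bd A).filter (fun q => ¬ j < q.2)).card := by
    calc j.val + 1 = (Iic j).card := by simp
      _ ≤ (((bd A).filter (fun q => ¬ j < q.2)).image Prod.snd).card := by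
        apply card_le_card
        intro j' hj'
        rw [mem_Iic] at hj'
        obtain ⟨r, hr, -, hrb⟩ := col_step i t j' (hA _ hp _ le_rfl hj') hA
          (fun h => h2 (hA _ h _ le_rfl (hz' _)))
        rw [mem_image]
        exact ⟨(r, j'), by rw [mem_filter]; exact ⟨hrb, not_lt.2 hj'⟩, rfl⟩
      _ ≤ _ := card_image_le
  have := card_filter_add_card_filter_not (s := bd A) (fun q => j < q.2)
  simp only
  omega

lemma case_two {A : Finset (Cell m n)} (hA : IsIdeal A) (z : Fin m) (z' : Fin n) (t : Fin m)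
    (t' : Fin n) (hz' : ∀ j, z' ≤ j) (ht' : ∀ j, j ≤ t')
    (h1 : (z, t') ∈ A) (h2 : (t, z') ∉ A) : n ≤ (bd A).card := by
  classical
  calc n = (univ : Finset (Fin n)).card := by simp
    _ ≤ ((bd A).image Prod.snd).card := by
      apply card_le_card
      intro j' _
      obtain ⟨r, hr, -, hrb⟩ := col_step z t j' (hA _ h1 _ le_rfl (ht' _)) hA
          (fun h => h2 (hA _ h _ le_rfl (hz' _)))
      rw [mem_image]
      exact ⟨(r, j'), hrb, rfl⟩
    _ ≤ _ := card_image_le

lemma case_two' {A : Finset (Cell m n)} (hA : IsIdeal A) (z : Fin m) (z' : Fin n) (t : Fin m)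
    (t' : Fin n) (hz : ∀ i, z ≤ i) (ht : ∀ i, i ≤ t)
    (h1 : (z, t') ∉ A) (h2 : (t, z') ∈ A) : m ≤ (bd A).card := by
  classical
  calc m = (univ : Finset (Fin m)).card := by simp
    _ ≤ ((bd A).image Prod.fst).card := by
      apply card_le_card
      intro i' _
      obtain ⟨r, hr, -, hrb⟩ := row_step i' z' t' (hA _ h2 _ (ht _) le_rfl) hA
          (fun h => h1 (hA _ h _ (hz _) le_rfl))
      rw [mem_image]
      exact ⟨(i', r), hrb, rfl⟩
    _ ≤ _ := card_image_le

lemma case_three {A : Finset (Cell m n)} (hA : IsIdeal A) (z : Fin m) (z' : Fin n) (t : Fin m)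
    (t' : Fin n) (ht : ∀ i, i ≤ t) (ht' : ∀ j, j ≤ t')
    (h1 : (z, t') ∈ A) (h2 : (t, z') ∈ A)
    {p : Cell m n} (hp : p ∉ A) :
    (m - p.1.val) + (n - p.2.val) ≤ (bd A).card + 1 := by
  classical
  obtain ⟨i, j⟩ := p
  have hrow : m - i.val ≤ ((bd A).filter (fun q => i ≤ q.1 ∧ q.2 ≤ j)).card := by
    calc m - i.val = (Ici i).card := by simp
      _ ≤ (((bd A).filter (fun q => i ≤ q.1 ∧ q.2 ≤ j)).image Prod.fst).card := by
        apply card_le_card
        intro i' hi'
        rw [mem_Ici] at hi'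
        obtain ⟨c, -, hc, hcb⟩ := row_step i' z' j (hA _ h2 _ (ht _) le_rfl) hA
          (fun h => hp (hA _ h _ hi' le_rfl))
        rw [mem_image]
        exact ⟨(i', c), by rw [mem_filter]; exact ⟨hcb, hi', hc⟩, rfl⟩
      _ ≤ _ := card_image_le
  have hcol : n - j.val ≤ ((bd A).filter (fun q => q.1 ≤ i ∧ j ≤ q.2)).card := by
    calc n - j.val = (Ici j).card := by simp
      _ ≤ (((bd A).filter (fun q => q.1 ≤ i ∧ j ≤ q.2)).image Prod.snd).card := by
        apply card_le_card
        intro j' hj'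
        rw [mem_Ici] at hj'
        obtain ⟨r, -, hr, hrb⟩ := col_step z i j' (hA _ h1 _ le_rfl (ht' _)) hA
          (fun h => hp (hA _ h _ le_rfl hj'))
        rw [mem_image]
        exact ⟨(r, j'), by rw [mem_filter]; exact ⟨hrb, hr, hj'⟩, rfl⟩
      _ ≤ _ := card_image_le
  have hunion := card_union_add_card_inter ((bd A).filter (fun q => i ≤ q.1 ∧ q.2 ≤ j))
    ((bd A).filter (fun q => q.1 ≤ i ∧ j ≤ q.2))
  have hle : ((bd A).filter (fun q => i ≤ q.1 ∧ q.2 ≤ j) ∪
    (bd A).filter (fun q => q.1 ≤ i ∧ j ≤ q.2)).card ≤ (bd A).card := by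
    apply card_le_card
    exact union_subset (filter_subset _ _) (filter_subset _ _)
  have hint : ((bd A).filter (fun q => i ≤ q.1 ∧ q.2 ≤ j) ∩
    (bd A).filter (fun q => q.1 ≤ i ∧ j ≤ q.2)).card ≤ 1 := by
    rw [card_le_one]
    intro a ha b hb
    rw [mem_inter, mem_filter, mem_filter] at ha hb
    have e1 : a.1 = i := le_antisymm ha.2.2.1 ha.1.2.1
    have e2 : a.2 = j := le_antisymm ha.1.2.2 ha.2.2.2
    have e3 : b.1 = i := le_antisymm hb.2.2.1 hb.1.2.1
    have e4 : b.2 = j := le_antisymm hb.1.2.2 hb.2.2.2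
    exact Prod.ext (e1.trans e3.symm) (e2.trans e4.symm)
  simp only
  omega

/-- The number of cells with `i + j < k`. -/
def cnt (m n k : ℕ) : ℕ := (univ.filter (fun p : Cell m n => p.1.val + p.2.val < k)).card

lemma iso {A : Finset (Cell m n)} (hA : IsIdeal A) (hm : 0 < m) (hn : 0 < n) (hmn : n ≤ m) :
    A.card ≤ cnt m n ((bd A).card - 1) ∨ n ≤ (bd A).card ∨ m * n - A.card ≤ cnt m n (bd A).card := by
  classical
  set z : Fin m := ⟨0, hm⟩
  set z' : Fin n := ⟨0, hn⟩
  set t : Fin m := ⟨m - 1, by omega⟩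
  set t' : Fin n := ⟨n - 1, by omega⟩
  have hz : ∀ i, z ≤ i := fun i => by rw [Fin.le_def]; exact Nat.zero_le _
  have hz' : ∀ j, z' ≤ j := fun j => by rw [Fin.le_def]; exact Nat.zero_le _
  have ht : ∀ i, i ≤ t := fun i => by rw [Fin.le_def]; have := i.2; change i.val ≤ m - 1; omega
  have ht' : ∀ j, j ≤ t' := fun j => by rw [Fin.le_def]; have := j.2; change j.val ≤ n - 1; omega
  by_cases h1 : (z, t') ∈ A
  · by_cases h2 : (t, z') ∈ A
    · right; right
      have hc : m * n - A.card = (Aᶜ).card := by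
        rw [card_compl, Fintype.card_prod, Fintype.card_fin, Fintype.card_fin]
      rw [hc]
      unfold cnt
      have hinj : Function.Injective (fun p : Cell m n => ((p.1.rev, p.2.rev) : Cell m n)) := by
        intro p q h
        simp only [Prod.mk.injEq, Fin.rev_inj] at h
        exact Prod.ext h.1 h.2
      rw [← card_image_of_injective _ hinj]
      apply card_le_card
      intro q hq
      rw [mem_image] at hq
      obtain ⟨p, hp, rfl⟩ := hq
      rw [mem_compl] at hp
      have := case_three hA z z' t t' ht ht' h1 h2 hp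
      rw [mem_filter]
      refine ⟨mem_univ _, ?_⟩
      simp only [Fin.val_rev]
      have := p.1.2
      have := p.2.2
      omega
    · right; left
      exact case_two hA z z' t t' hz' ht' h1 h2
  · by_cases h2 : (t, z') ∈ A
    · right; left
      exact hmn.trans (case_two' hA z z' t t' hz ht h1 h2)
    · left
      unfold cnt
      apply card_le_card
      intro p hp
      have := case_one hA z z' t t' hz hz' h1 h2 hp
      rw [mem_filter]
      exact ⟨mem_univ _, by omega⟩

lemma exists_ideal (s : ℕ) (hs : s ≤ m * n) : ∃ A : Finset (Cell m n), IsIdeal A ∧ A.card = s := by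
  classical
  obtain ⟨k, hk⟩ : ∃ k, s + k = m * n := ⟨m * n - s, by omega⟩
  induction k generalizing s with
  | zero =>
    refine ⟨univ, fun _ _ _ _ _ => mem_univ _, ?_⟩
    rw [card_univ, Fintype.card_prod, Fintype.card_fin, Fintype.card_fin]
    omega
  | succ k ih =>
    obtain ⟨A, hA, hc⟩ := ih (s + 1) (by omega) (by omega)
    have hne : A.Nonempty := by rw [← card_pos]; omega
    obtain ⟨p, hp, hmax⟩ := exists_max_image A (fun p : Cell m n => p.1.val + p.2.val) hne
    refine ⟨A.erase p, ?_, by rw [card_erase_of_mem hp]; omega⟩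
    intro q hq r hr1 hr2
    rw [mem_erase] at hq ⊢
    refine ⟨?_, hA q hq.2 r hr1 hr2⟩
    rintro rfl
    have h1 := hmax q hq.2
    apply hq.1
    rw [Fin.le_def] at hr1 hr2
    have h1' : q.1.val + q.2.val ≤ r.1.val + r.2.val := h1
    exact Prod.ext (Fin.ext (by omega)) (Fin.ext (by omega))

lemma nu_spec (s : ℕ) (hs : s ≤ m * n) :
    ∃ A : Finset (Cell m n), IsIdeal A ∧ A.card = s ∧ (nbhd A).card = nu m n s := by
  apply Nat.sInf_mem (s := {t : ℕ | ∃ A : Finset (Cell m n), IsIdeal A ∧ A.card = s ∧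
    (nbhd A).card = t})
  obtain ⟨A, hA, hc⟩ := exists_ideal s hs
  exact ⟨_, A, hA, hc, rfl⟩

/-- `S n k = ∑_{j < n} (k - j)⁺`. -/
def S (n k : ℕ) : ℕ := ∑ j ∈ range n, (k - j)

lemma cnt_eq (m n k : ℕ) : cnt m n k = ∑ j ∈ range n, min m (k - j) := by
  classical
  unfold cnt
  rw [card_filter, Fintype.sum_prod_type_right]
  rw [← Fin.sum_univ_eq_sum_range (fun j => min m (k - j)) n]
  apply sum_congr rfl
  intro j _
  rw [Fin.sum_univ_eq_sum_range (fun i => if i + j.val < k then 1 else 0) m, ← card_filter]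
  have : (range m).filter (fun i => i + j.val < k) = range (min m (k - j.val)) := by
    ext i
    rw [mem_filter, mem_range, mem_range]
    omega
  rw [this, card_range]

lemma cnt_le (m n k : ℕ) : cnt m n k ≤ S n k := by
  rw [cnt_eq]
  exact sum_le_sum (fun j _ => min_le_right _ _)

lemma cnt_eq_S (m n k : ℕ) (hk : k ≤ m) : cnt m n k = S n k := by
  rw [cnt_eq]
  exact sum_congr rfl (fun j _ => min_eq_right (by omega))

lemma cnt_mono (m n : ℕ) {k l : ℕ} (h : k ≤ l) : cnt m n k ≤ cnt m n l := by
  rw [cnt_eq, cnt_eq]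
  exact sum_le_sum (fun j _ => min_le_min le_rfl (by omega))

lemma cnt_symm (m n k : ℕ) :
    cnt m n k + cnt m n (m + n - 1 - k) = m * n := by
  classical
  have h1 : cnt m n (m + n - 1 - k) =
      (univ.filter (fun p : Cell m n => ¬ p.1.val + p.2.val < k)).card := by
    unfold cnt
    apply card_bij (fun (p : Cell m n) _ => ((p.1.rev, p.2.rev) : Cell m n))
    · intro p hp
      rw [mem_filter] at hp ⊢
      refine ⟨mem_univ _, ?_⟩
      simp only [Fin.val_rev]
      have := p.1.2
      have := p.2.2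
      omega
    · intro p _ q _ h
      simp only [Prod.mk.injEq, Fin.rev_inj] at h
      exact Prod.ext h.1 h.2
    · intro q hq
      rw [mem_filter] at hq
      refine ⟨(q.1.rev, q.2.rev), ?_, by simp⟩
      rw [mem_filter]
      refine ⟨mem_univ _, ?_⟩
      simp only [Fin.val_rev]
      have := q.1.2
      have := q.2.2
      omega
  rw [h1]
  unfold cnt
  rw [card_filter_add_card_filter_not, card_univ, Fintype.card_prod, Fintype.card_fin,
    Fintype.card_fin]

end iso

/-! ### The extremal function -/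

section numeric

variable {n : ℕ}

lemma S_zero (n : ℕ) : S n 0 = 0 := by simp [S]

lemma S_succ (n k : ℕ) : S n (k + 1) = S n k + min (k + 1) n := by
  unfold S
  have h1 : ∀ j ∈ range n, (k + 1 - j) = (k - j) + (if j < k + 1 then 1 else 0) := by
    intro j _
    split_ifs <;> omega
  rw [sum_congr rfl h1, sum_add_distrib, ← card_filter]
  congr 1
  have : (range n).filter (fun j => j < k + 1) = range (min (k + 1) n) := by
    ext j
    rw [mem_filter, mem_range, mem_range]
    omega
  rw [this, card_range]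

lemma S_lt_succ (hn : 0 < n) (k : ℕ) : S n k < S n (k + 1) := by
  rw [S_succ]
  have : 0 < min (k + 1) n := by omega
  omega

lemma S_strictMono (hn : 0 < n) : StrictMono (S n) := strictMono_nat_of_lt_succ (S_lt_succ hn)

lemma S_closed (n k : ℕ) : 2 * (S n k : ℤ) =
    2 * ((min k n : ℕ) : ℤ) * k - ((min k n : ℕ) : ℤ) * (((min k n : ℕ) : ℤ) - 1) := by
  induction k with
  | zero => simp [S_zero]
  | succ k ih =>
    rw [S_succ]
    push_cast [Nat.cast_add] at ih ⊢
    rcases Nat.lt_or_ge k n with h | h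
    · have h1 : min (k : ℤ) (n : ℤ) = k := min_eq_left (by exact_mod_cast h.le)
      have h2 : min ((k : ℤ) + 1) (n : ℤ) = k + 1 := min_eq_left (by exact_mod_cast h)
      rw [h1] at ih
      rw [h2]
      linarith
    · have h1 : min (k : ℤ) (n : ℤ) = n := min_eq_right (by exact_mod_cast h)
      have h2 : min ((k : ℤ) + 1) (n : ℤ) = n := min_eq_right (by
        have : (n : ℤ) ≤ k := by exact_mod_cast h
        omega)
      rw [h1] at ih
      rw [h2]
      linarith

/-- Partial sums of `S n`. -/
def AA (n k : ℕ) : ℕ := ∑ i ∈ range (k + 1), S n i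

lemma AA_zero (n : ℕ) : AA n 0 = 0 := by simp [AA, S_zero]

lemma AA_succ (n k : ℕ) : AA n (k + 1) = AA n k + S n (k + 1) := by
  unfold AA
  rw [sum_range_succ]

lemma AA_mono (n : ℕ) {k l : ℕ} (h : k ≤ l) : AA n k ≤ AA n l := by
  induction l, h using Nat.le_induction with
  | base => exact le_rfl
  | succ l _ ih => rw [AA_succ]; omega

/-- The least `k` with `s ≤ S n k`. -/
noncomputable def kap (n s : ℕ) : ℕ := sInf {k : ℕ | s ≤ S n k}

lemma le_S_kap (hn : 0 < n) (s : ℕ) : s ≤ S n (kap n s) := by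
  apply Nat.sInf_mem (s := {k : ℕ | s ≤ S n k})
  exact ⟨s, (S_strictMono hn).le_apply⟩

lemma kap_le {s k : ℕ} (h : s ≤ S n k) : kap n s ≤ k := Nat.sInf_le h

lemma rep (hn : 0 < n) (s : ℕ) : ∃ u, s + u = S n (kap n s) ∧
    (u < min (kap n s) n ∨ (kap n s = 0 ∧ u = 0 ∧ s = 0)) := by
  have h1 := le_S_kap hn s
  refine ⟨S n (kap n s) - s, by omega, ?_⟩
  rcases Nat.eq_zero_or_pos (kap n s) with h0 | h0
  · right
    rw [h0, S_zero] at h1 ⊢
    omega
  · left
    obtain ⟨k, hk⟩ : ∃ k, kap n s = k + 1 := ⟨kap n s - 1, by omega⟩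
    have h2 : ¬ s ≤ S n k := fun h => by
      have := kap_le h
      omega
    have h3 := S_succ n k
    rw [hk] at h1 ⊢
    omega

/-- Twice the largest weight of a chain ending in `S n k - u`. -/
def F (n k : ℕ) (u : ℤ) : ℤ := 2 * AA n k - 2 * u * k + u * (u - 1)

/-- Twice the largest weight of a chain ending in `s`. -/
noncomputable def G (n s : ℕ) : ℤ := F n (kap n s) ((S n (kap n s) : ℤ) - s)

lemma G_val (hn : 0 < n) {k u s : ℕ} (hu : u ≤ min k n) (hs : s + u = S n k) :
    G n s = F n k u := by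
  have hk := kap_le (n := n) (s := s) (k := k) (by omega)
  rcases Nat.lt_or_ge u (min k n) with h | h
  · have hke : kap n s = k := by
      by_contra hne
      obtain ⟨k', rfl⟩ : ∃ k', k = k' + 1 := ⟨k - 1, by omega⟩
      have h1 : S n (kap n s) ≤ S n k' := (S_strictMono hn).monotone (by omega)
      have h2 := le_S_kap hn s
      have h3 := S_succ n k'
      omega
    unfold G
    rw [hke]
    congr 1
    omega
  · have hue : u = min k n := le_antisymm hu h
    rcases Nat.eq_zero_or_pos k with h0 | h0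
    · subst h0
      have : u = 0 := by omega
      subst this
      have : kap n s = 0 := by omega
      unfold G
      rw [this, S_zero]
      rw [S_zero] at hs
      have : s = 0 := by omega
      subst this
      simp
    · obtain ⟨k', rfl⟩ : ∃ k', k = k' + 1 := ⟨k - 1, by omega⟩
      have h3 := S_succ n k'
      have hs' : s = S n k' := by omega
      have hke : kap n s = k' := by
        apply le_antisymm (kap_le hs'.le)
        by_contra hne
        push Not at hne
        have h1 := S_strictMono hn hne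
        have h2 := le_S_kap hn s
        omega
      unfold G
      rw [hke, hs']
      unfold F
      have hc := S_closed n (k' + 1)
      rw [← hue] at hc
      rw [AA_succ]
      push_cast at hc ⊢
      linarith

lemma G_zero (hn : 0 < n) : G n 0 = 0 := by
  rw [G_val hn (k := 0) (u := 0) (by omega) (by rw [S_zero])]
  simp [F, AA_zero]

lemma slope (hn : 0 < n) (s : ℕ) : G n s + 2 ≤ G n (s + 1) := by
  obtain ⟨u, hu, hc⟩ := rep hn s
  set k := kap n s with hk
  have hu' : u ≤ min k n := by omega
  have h0 := G_val hn hu' hu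
  rcases Nat.eq_zero_or_pos u with hu0 | hu0
  · have h1 := S_succ n k
    have hmu : 0 < min (k + 1) n := by omega
    have h2 := G_val hn (k := k + 1) (u := min (k + 1) n - 1) (s := s + 1) (by omega) (by omega)
    rw [h0, h2, hu0]
    unfold F
    have hcl := S_closed n (k + 1)
    obtain ⟨μ, hμ⟩ : ∃ μ, μ = min (k + 1) n := ⟨_, rfl⟩
    rw [← hμ] at hcl hmu ⊢
    have hμk : μ ≤ k + 1 := by omega
    rw [AA_succ]
    obtain ⟨ν, rfl⟩ : ∃ ν, μ = ν + 1 := ⟨μ - 1, by omega⟩
    have : (ν : ℤ) ≤ k := by exact_mod_cast (by omega : ν ≤ k)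
    push_cast [Nat.add_sub_cancel] at hcl ⊢
    nlinarith
  · have h2 := G_val hn (k := k) (u := u - 1) (s := s + 1) (by omega) (by omega)
    rw [h0, h2]
    unfold F
    obtain ⟨w, rfl⟩ : ∃ w, u = w + 1 := ⟨u - 1, by omega⟩
    have hwk : (w : ℤ) + 1 ≤ k := by exact_mod_cast (by omega : w + 1 ≤ k)
    push_cast [Nat.add_sub_cancel]
    nlinarith

lemma slope' (hn : 0 < n) {s t : ℕ} (hst : s ≤ t) :
    G n s + 2 * ((t : ℤ) - s) ≤ G n t := by
  induction t, hst using Nat.le_induction with
  | base => simp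
  | succ t _ ih =>
    have := slope hn t
    push_cast
    linarith

lemma G_ge (hn : 0 < n) (s : ℕ) : 2 * (s : ℤ) ≤ G n s := by
  have := slope' hn (Nat.zero_le s)
  rw [G_zero hn] at this
  push_cast at this
  linarith

lemma G_le (hn : 0 < n) {s k : ℕ} (h : s ≤ S n k) : G n s ≤ 2 * (AA n k : ℤ) := by
  have h1 := slope' hn h
  have h2 := G_val hn (k := k) (u := 0) (s := S n k) (by omega) rfl
  have h3 : F n k ((0 : ℕ) : ℤ) = 2 * (AA n k : ℤ) := by simp [F]
  have h4 : (s : ℤ) ≤ (S n k : ℤ) := by exact_mod_cast h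
  rw [h2, h3] at h1
  linarith

lemma step_up (hn : 0 < n) {s t : ℕ} (hs : 0 < s) (h : s + min (kap n s + 1) n ≤ t) :
    G n s + 2 * (t : ℤ) ≤ G n t := by
  obtain ⟨u, hu, hc⟩ := rep hn s
  set k := kap n s with hk
  have hu' : u ≤ min k n := by omega
  have h0 := G_val hn hu' hu
  have h1 := S_succ n k
  have h2 := G_val hn (k := k + 1) (u := u) (s := s + min (k + 1) n) (by omega) (by omega)
  have h3 := slope' hn h
  have h4 : F n (k + 1) u = F n k u + 2 * ((s + min (k + 1) n : ℕ) : ℤ) := by
    unfold F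
    have h5 : ((s + min (k + 1) n : ℕ) : ℤ) = (S n (k + 1) : ℤ) - u := by
      have : (s + min (k + 1) n) + u = S n (k + 1) := by omega
      have h6 : ((s + min (k + 1) n : ℕ) : ℤ) + u = (S n (k + 1) : ℤ) := by exact_mod_cast this
      linarith
    rw [h5, AA_succ]
    push_cast
    ring
  rw [h2, h4] at h3
  rw [h0]
  linarith

lemma step_down (hn : 0 < n) {y t : ℕ} (hy : 0 < y) (h : t + min (kap n y) n ≤ y) :
    G n t + 2 * (y : ℤ) ≤ G n y := by
  obtain ⟨u, hu, hc⟩ := rep hn y
  set k := kap n y with hk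
  have hu' : u ≤ min k n := by omega
  have h0 := G_val hn hu' hu
  have hc' : u < min k n := by omega
  obtain ⟨k', hk'⟩ : ∃ k', k = k' + 1 := ⟨k - 1, by omega⟩
  rw [hk'] at h0 hu h hc' 
  have h1 := S_succ n k'
  have hle : u ≤ S n k' := by omega
  have h2 := G_val hn (k := k') (u := u) (s := S n k' - u) (by omega) (by omega)
  have h3 := slope' hn (s := t) (t := S n k' - u) (by omega)
  have h3' : (t : ℤ) ≤ ((S n k' - u : ℕ) : ℤ) := by exact_mod_cast (by omega : t ≤ S n k' - u)
  have h4 : F n (k' + 1) u = F n k' u + 2 * (y : ℤ) := by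
    unfold F
    have h5 : (y : ℤ) = (S n (k' + 1) : ℤ) - u := by
      have h6 : (y : ℤ) + u = (S n (k' + 1) : ℤ) := by exact_mod_cast hu
      linarith
    rw [h5, AA_succ]
    push_cast
    ring
  rw [h0, h4]
  rw [h2] at h3
  linarith

lemma core (u v h N : ℤ) (hu : u ≤ N - 1) (hv : v ≤ N - 1) (huv : N ≤ u + v) (hh : N - 1 ≤ h) :
    2 * (N - u) ≤ 2 * (u + v - N) * h + N * (N - 1) - u * (u - 1) - v * (v - 1) := by
  have h1 : 0 ≤ (u + v - N) * (h - (N - 1)) := mul_nonneg (by linarith) (by linarith)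
  obtain ⟨a, ha⟩ : ∃ a, a = N - 1 - u := ⟨_, rfl⟩
  obtain ⟨b, hb⟩ : ∃ b, b = N - 1 - v := ⟨_, rfl⟩
  obtain ⟨w, hw⟩ : ∃ w, w = u + v - N := ⟨_, rfl⟩
  have ea : u = N - 1 - a := by linarith
  have eb : v = N - 1 - b := by linarith
  have ew : N = w + a + b + 2 := by linarith
  have ha0 : 0 ≤ a := by linarith
  have hb0 : 0 ≤ b := by linarith
  have hw0 : 0 ≤ w := by linarith
  have h2 : 2 * (u + v - N) * h + N * (N - 1) - u * (u - 1) - v * (v - 1) - 2 * (N - u) =
      2 * ((u + v - N) * (h - (N - 1))) +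
        (w ^ 2 + 2 * w * (a + 1) + 2 * w * b + w + 2 * (a + 1) * b) := by
    subst ea eb
    subst ew
    ring
  have h3 : 0 ≤ w ^ 2 + 2 * w * (a + 1) + 2 * w * b + w + 2 * (a + 1) * b := by positivity
  linarith

set_option maxHeartbeats 4000000 in
/-- The joint inequality. -/
lemma joint {m : ℕ} (hn : 0 < n) (hmn : n ≤ m) {s y : ℕ} (hs : 2 * s ≤ m * n)
    (hy : 2 * y ≤ m * n) (hsy : s = 0 ∨ s + min (kap n s + 1) n + y ≤ m * n) {h : ℕ}
    (hh : 2 * h ≤ m + n - 1) (hh' : m + n - 1 ≤ 2 * h + 1) :
    G n s + G n y ≤ 2 * (AA n h : ℤ) + 2 * (AA n (m + n - 2 - h) : ℤ) := by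
  have hSh := S_closed n h
  rcases Nat.lt_or_ge (2 * h) (m + n - 1) with hodd | heven
  · -- `m + n - 1 = 2 h + 1`
    have hN : m + n = 2 * h + 2 := by omega
    have hhn : n ≤ h + 1 := by omega
    have e1 : m + n - 2 - h = h := by omega
    rw [e1]
    have hS1 := S_succ n h
    have hmin : min (h + 1) n = n := by omega
    rw [hmin] at hS1
    have hSh1 := S_closed n (h + 1)
    rw [hmin] at hSh1
    have hNz : (m : ℤ) = 2 * h + 2 - n := by
      have : (m : ℤ) + n = 2 * h + 2 := by exact_mod_cast hN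
      linarith
    have hM : 2 * (S n (h + 1) : ℤ) = m * n + n := by
      rw [hSh1, hNz]; push_cast; ring
    have hM' : 2 * S n (h + 1) = m * n + n := by exact_mod_cast hM
    have hAA := AA_succ n h
    have hAAz : (AA n (h + 1) : ℤ) = AA n h + S n (h + 1) := by exact_mod_cast hAA
    have hS1z : (S n (h + 1) : ℤ) = S n h + n := by exact_mod_cast hS1
    -- analysis of one large value
    have big : ∀ x : ℕ, 2 * x ≤ m * n → S n h < x → kap n x = h + 1 ∧ ∃ u : ℕ,
        x + u = S n (h + 1) ∧ u < n ∧ n ≤ 2 * u ∧ G n x = F n (h + 1) u := by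
      intro x hx1 hx2
      have hx3 : x ≤ S n (h + 1) := by omega
      refine ⟨le_antisymm (kap_le hx3) ?_, S n (h + 1) - x, by omega, by omega, by omega, ?_⟩
      · by_contra hlt
        push Not at hlt
        have := (S_strictMono hn).monotone (show kap n x ≤ h by omega)
        have := le_S_kap hn x
        omega
      · exact G_val hn (by omega) (by omega)
    -- one large value, the other at most `S n (h - 1)`
    have big_small : ∀ x z : ℕ, 2 * x ≤ m * n → S n h < x → 1 ≤ h → z ≤ S n (h - 1) →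
        G n x + G n z ≤ 2 * (AA n h : ℤ) + 2 * (AA n h : ℤ) := by
      intro x z hx1 hx2 hh1 hz
      obtain ⟨-, u, hu1, hu2, hu3, hG⟩ := big x hx1 hx2
      have hGz := G_le hn hz
      obtain ⟨g, rfl⟩ : ∃ g, h = g + 1 := ⟨h - 1, by omega⟩
      rw [Nat.add_sub_cancel] at hGz
      have hA2 := AA_succ n g
      have hA2z : (AA n (g + 1) : ℤ) = AA n g + S n (g + 1) := by exact_mod_cast hA2
      rw [hG]
      unfold F
      rw [hAAz]
      have hu2z : (u : ℤ) + 1 ≤ n := by exact_mod_cast hu2
      have hu3z : (n : ℤ) ≤ 2 * u := by exact_mod_cast hu3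
      have hgz : (n : ℤ) ≤ (g : ℤ) + 2 := by exact_mod_cast (by omega : n ≤ g + 2)
      have hu0 : (1 : ℤ) ≤ u := by
        have : 1 ≤ u := by omega
        exact_mod_cast this
      push_cast at hAAz hS1z hu2z hgz ⊢
      nlinarith [mul_nonneg (by linarith : (0:ℤ) ≤ u) (by linarith : (0:ℤ) ≤ (g:ℤ) + 2 - n),
        mul_nonneg (by linarith : (0:ℤ) ≤ u) (by linarith : (0:ℤ) ≤ n - 1 - u),
        mul_nonneg (by linarith : (0:ℤ) ≤ (u:ℤ)) (by linarith : (0:ℤ) ≤ (n:ℤ) - 2)]
    -- one large value, the other in the block `h`, with the joint constraint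
    have big_mid : ∀ x z : ℕ, 2 * x ≤ m * n → S n h < x → 1 ≤ h → S n (h - 1) < z → z ≤ S n h →
        x + n + z ≤ m * n →
        G n x + G n z ≤ 2 * (AA n h : ℤ) + 2 * (AA n h : ℤ) := by
      intro x z hx1 hx2 hh1 hz1 hz2 hxz
      obtain ⟨-, u, hu1, hu2, hu3, hG⟩ := big x hx1 hx2
      obtain ⟨g, rfl⟩ : ∃ g, h = g + 1 := ⟨h - 1, by omega⟩
      rw [Nat.add_sub_cancel] at hz1
      have hS2 := S_succ n g
      obtain ⟨v, hv⟩ : ∃ v, z + v = S n (g + 1) := ⟨S n (g + 1) - z, by omega⟩
      have hvm : v < min (g + 1) n := by omega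
      have hGz := G_val hn (k := g + 1) (u := v) (s := z) (by omega) hv
      have huv : n ≤ u + v := by omega
      rw [hG, hGz]
      have hcore := core u v (g + 1) n (by
        have : (u : ℤ) + 1 ≤ n := by exact_mod_cast hu2
        linarith) (by
        have : (v : ℤ) + 1 ≤ n := by exact_mod_cast (by omega : v + 1 ≤ n)
        linarith) (by exact_mod_cast huv) (by
        have : (n : ℤ) ≤ (g : ℤ) + 1 + 1 := by exact_mod_cast hhn
        linarith)
      unfold F
      rw [hAAz]
      push_cast at hSh1 ⊢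
      linarith
    rcases Nat.lt_or_ge (S n h) s with hs1 | hs1
    · rcases Nat.lt_or_ge (S n h) y with hy1 | hy1
      · exfalso
        obtain ⟨hk, -⟩ := big s hs hs1
        have : min (kap n s + 1) n = n := by omega
        rw [this] at hsy
        omega
      · rcases Nat.eq_zero_or_pos h with h0 | h0
        · subst h0
          obtain ⟨-, u, hu1, hu2, hu3, -⟩ := big s hs hs1
          omega
        · rcases Nat.lt_or_ge (S n (h - 1)) y with hy2 | hy2
          · obtain ⟨hk, -⟩ := big s hs hs1
            have hmin2 : min (kap n s + 1) n = n := by omega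
            rw [hmin2] at hsy
            exact big_mid s y hs hs1 h0 hy2 hy1 (by omega)
          · exact big_small s y hs hs1 h0 hy2
    · rcases Nat.lt_or_ge (S n h) y with hy1 | hy1
      · rcases Nat.eq_zero_or_pos h with h0 | h0
        · subst h0
          obtain ⟨-, u, hu1, hu2, hu3, -⟩ := big y hy hy1
          omega
        · rcases Nat.lt_or_ge (S n (h - 1)) s with hs2 | hs2
          · have hk : kap n s = h := by
              apply le_antisymm (kap_le hs1)
              by_contra hlt
              push Not at hlt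
              have := (S_strictMono hn).monotone (show kap n s ≤ h - 1 by omega)
              have := le_S_kap hn s
              omega
            have hmin2 : min (kap n s + 1) n = n := by omega
            rw [hmin2] at hsy
            have := big_mid y s hy hy1 h0 hs2 hs1 (by omega)
            linarith
          · have := big_small y s hy hy1 h0 hs2
            linarith
      · have h1 := G_le hn hs1
        have h2 := G_le hn hy1
        linarith
  · -- `m + n - 1 = 2 h`
    have hN : m + n = 2 * h + 1 := by omega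
    have hhn : n ≤ h := by omega
    have hmin : min h n = n := by omega
    rw [hmin] at hSh
    obtain ⟨g, rfl⟩ : ∃ g, h = g + 1 := ⟨h - 1, by omega⟩
    have e1 : m + n - 2 - (g + 1) = g := by omega
    rw [e1]
    have hNz : (m : ℤ) = 2 * (g + 1) + 1 - n := by
      have : (m : ℤ) + n = 2 * (g + 1) + 1 := by exact_mod_cast hN
      linarith
    have hM : 2 * (S n (g + 1) : ℤ) = m * n := by
      rw [hSh, hNz]; push_cast; ring
    have hM' : 2 * S n (g + 1) = m * n := by exact_mod_cast hM
    have hAA := AA_succ n g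
    have hAAz : (AA n (g + 1) : ℤ) = AA n g + S n (g + 1) := by exact_mod_cast hAA
    have hS1 := S_succ n g
    have hs1 : s ≤ S n (g + 1) := by omega
    have hy1 : y ≤ S n (g + 1) := by omega
    rcases Nat.lt_or_ge (S n g) s with hs2 | hs2
    · rcases Nat.lt_or_ge (S n g) y with hy2 | hy2
      · have hk : kap n s = g + 1 := by
          apply le_antisymm (kap_le hs1)
          by_contra hlt
          push Not at hlt
          have := (S_strictMono hn).monotone (show kap n s ≤ g by omega)
          have := le_S_kap hn s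
          omega
        have hmin2 : min (kap n s + 1) n = n := by omega
        rw [hmin2] at hsy
        obtain ⟨u, hu⟩ : ∃ u, s + u = S n (g + 1) := ⟨S n (g + 1) - s, by omega⟩
        obtain ⟨v, hv⟩ : ∃ v, y + v = S n (g + 1) := ⟨S n (g + 1) - y, by omega⟩
        have hGs := G_val hn (k := g + 1) (u := u) (s := s) (by omega) hu
        have hGy := G_val hn (k := g + 1) (u := v) (s := y) (by omega) hv
        have hun : u < n := by omega
        have hvn : v < n := by omega
        have huv : n ≤ u + v := by omega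
        rw [hGs, hGy]
        have hcore := core u v (g + 1) n (by
          have : (u : ℤ) + 1 ≤ n := by exact_mod_cast hun
          linarith) (by
          have : (v : ℤ) + 1 ≤ n := by exact_mod_cast hvn
          linarith) (by exact_mod_cast huv) (by
          have : (n : ℤ) ≤ (g : ℤ) + 1 := by exact_mod_cast hhn
          linarith)
        have hun' : (u : ℤ) ≤ n := by exact_mod_cast hun.le
        unfold F
        push_cast at hSh hAAz ⊢
        linarith
      · have h1 := G_le hn hs1
        have h2 := G_le hn hy2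
        linarith
    · have h1 := G_le hn hs2
      have h2 := G_le hn hy1
      linarith

end numeric

/-! ### The weight of the antidiagonal chain -/

lemma antidiagonal_eq (m n l : ℕ) : antidiagonal m n l = cnt m n (l + 1) := by
  unfold antidiagonal cnt
  congr 1
  ext p
  rw [mem_filter, mem_filter, Nat.lt_succ_iff]

lemma D_lower {m n : ℕ} (hn : 0 < n) (hmn : n ≤ m) {h : ℕ}
    (hh : 2 * h ≤ m + n - 1) (hh' : m + n - 1 ≤ 2 * h + 1) :
    AA n h + AA n (m + n - 2 - h) ≤ weight m n (m + n - 2) (antidiagonal m n) := by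
  unfold weight
  rw [show m + n - 2 + 1 = h + (m + n - 2 - h + 1) by omega, sum_range_add]
  apply Nat.add_le_add
  · unfold AA
    rw [sum_range_succ', S_zero, add_zero]
    apply sum_le_sum
    intro l hl
    rw [mem_range] at hl
    rw [antidiagonal_eq, le_min_iff]
    have h1 := cnt_eq_S m n (l + 1) (by omega)
    have h2 := cnt_symm m n (l + 1)
    have h3 := cnt_mono m n (show l + 1 ≤ m + n - 1 - (l + 1) by omega)
    omega
  · unfold AA
    rw [← sum_range_reflect]
    apply sum_le_sum
    intro x hx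
    rw [mem_range] at hx
    rw [antidiagonal_eq, le_min_iff]
    have e1 : m + n - 2 - h + 1 - 1 - x = m + n - 1 - (h + x + 1) := by omega
    rw [e1]
    have h1 := cnt_eq_S m n (m + n - 1 - (h + x + 1)) (by omega)
    have h2 := cnt_symm m n (h + x + 1)
    have h3 := cnt_mono m n (show m + n - 1 - (h + x + 1) ≤ h + x + 1 by omega)
    omega

/-! ### The main argument -/

section main

variable {m n : ℕ}

lemma small_b (hn : 0 < n) (hmn : n ≤ m) {b s : ℕ} (hb : b < n) (h1 : s ≤ S n b)
    (h2 : m * n ≤ 2 * s) : False := by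
  have h3 := S_closed n b
  have hmin : min b n = b := by omega
  rw [hmin] at h3
  have h4 : (m * n : ℤ) ≤ 2 * (S n b : ℤ) := by
    have : m * n ≤ 2 * S n b := by omega
    exact_mod_cast this
  have h5 : (b : ℤ) + 1 ≤ n := by exact_mod_cast hb
  have h6 : (n : ℤ) ≤ m := by exact_mod_cast hmn
  have h7 : (0 : ℤ) < n := by exact_mod_cast hn
  have h8 : (0 : ℤ) ≤ b := by positivity
  nlinarith

lemma nu_ge (s : ℕ) (hs : s ≤ m * n) : s ≤ nu m n s := by
  obtain ⟨A, -, hc, hN⟩ := nu_spec (m := m) (n := n) s hs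
  rw [← hN, card_nbhd]
  omega

lemma nu_up (hn : 0 < n) (hmn : n ≤ m) (s : ℕ) (hs0 : 0 < s) (hs : 2 * s ≤ m * n) :
    s + min (kap n s + 1) n ≤ nu m n s := by
  obtain ⟨A, hA, hc, hN⟩ := nu_spec (m := m) (n := n) s (by omega)
  rw [← hN, card_nbhd, hc]
  apply Nat.add_le_add_left
  rcases iso hA (by omega) hn hmn with h | h | h
  · rw [hc] at h
    have h1 := h.trans (cnt_le m n _)
    have h2 := kap_le h1
    rcases Nat.eq_zero_or_pos (bd A).card with h0 | h0
    · rw [h0] at h1
      simp only [Nat.zero_sub, S_zero] at h1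
      omega
    · omega
  · omega
  · rw [hc] at h
    have h1 := h.trans (cnt_le m n _)
    by_contra hlt
    exact small_b hn hmn (b := (bd A).card) (s := m * n - s) (by omega) h1 (by omega)

lemma nu_down (hn : 0 < n) (hmn : n ≤ m) (s : ℕ) (hs1 : s ≤ m * n) (hs : m * n ≤ 2 * s) :
    s + min (kap n (m * n - s)) n ≤ nu m n s := by
  obtain ⟨A, hA, hc, hN⟩ := nu_spec (m := m) (n := n) s (by omega)
  rw [← hN, card_nbhd, hc]
  apply Nat.add_le_add_left
  rcases iso hA (by omega) hn hmn with h | h | h
  · rw [hc] at h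
    have h1 := h.trans (cnt_le m n _)
    by_contra hlt
    exact small_b hn hmn (b := (bd A).card - 1) (s := s) (by omega) h1 (by omega)
  · omega
  · rw [hc] at h
    have h1 := h.trans (cnt_le m n _)
    have h2 := kap_le h1
    omega

lemma main (hn : 0 < n) (hmn : n ≤ m) (L : ℕ) (c : ℕ → ℕ) (hc : IsNuChain m n L c) {h : ℕ}
    (hh : 2 * h ≤ m + n - 1) (hh' : m + n - 1 ≤ 2 * h + 1) :
    2 * (weight m n L c : ℤ) ≤ 2 * (AA n h : ℤ) + 2 * (AA n (m + n - 2 - h) : ℤ) := by
  have inv : ∀ l, l ≤ L →
      (2 * c l ≤ m * n ∧ 2 * (weight m n l c : ℤ) ≤ G n (c l)) ∨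
      (m * n < 2 * c l ∧ 2 * (weight m n l c : ℤ) + G n (m * n - c l) -
        2 * ((m * n - c l : ℕ) : ℤ) ≤ 2 * (AA n h : ℤ) + 2 * (AA n (m + n - 2 - h) : ℤ)) := by
    intro l
    induction l with
    | zero =>
      intro _
      have hw : weight m n 0 c = min (c 0) (m * n - c 0) := by simp [weight]
      rcases Nat.lt_or_ge (m * n) (2 * c 0) with h1 | h1
      · right
        refine ⟨h1, ?_⟩
        have h2 := joint hn hmn (s := 0) (y := m * n - c 0) (by omega) (by omega) (Or.inl rfl)
          hh hh'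
        rw [G_zero hn] at h2
        rw [hw, min_eq_right (by omega)]
        linarith
      · left
        refine ⟨h1, ?_⟩
        rw [hw, min_eq_left (by omega)]
        exact G_ge hn _
    | succ l ih =>
      intro hl
      have hstep := hc.2 l (by omega)
      have hcl := hc.1 l (by omega)
      have hcl1 := hc.1 (l + 1) hl
      have hge := nu_ge (m := m) (n := n) (c l) hcl
      have hw : weight m n (l + 1) c = weight m n l c + min (c (l + 1)) (m * n - c (l + 1)) := by
        unfold weight
        rw [sum_range_succ]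
      rcases ih (by omega) with ⟨h1, h2⟩ | ⟨h1, h2⟩
      · rcases Nat.eq_zero_or_pos (c l) with h0 | h0
        · rw [h0, G_zero hn] at h2
          rcases Nat.lt_or_ge (m * n) (2 * c (l + 1)) with h3 | h3
          · right
            refine ⟨h3, ?_⟩
            have h4 := joint hn hmn (s := 0) (y := m * n - c (l + 1)) (by omega) (by omega)
              (Or.inl rfl) hh hh'
            rw [G_zero hn] at h4
            rw [hw, min_eq_right (by omega)]
            push_cast
            linarith
          · left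
            refine ⟨h3, ?_⟩
            have := G_ge hn (c (l + 1))
            rw [hw, min_eq_left (by omega)]
            push_cast
            linarith
        · have h5 := nu_up hn hmn (c l) h0 h1
          rcases Nat.lt_or_ge (m * n) (2 * c (l + 1)) with h3 | h3
          · right
            refine ⟨h3, ?_⟩
            have h4 := joint hn hmn (s := c l) (y := m * n - c (l + 1)) h1 (by omega)
              (Or.inr (by omega)) hh hh'
            rw [hw, min_eq_right (by omega)]
            push_cast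
            linarith
          · left
            refine ⟨h3, ?_⟩
            have h6 := step_up hn h0 (h5.trans hstep)
            rw [hw, min_eq_left (by omega)]
            push_cast
            linarith
      · right
        have h3 : m * n < 2 * c (l + 1) := by omega
        refine ⟨h3, ?_⟩
        rw [hw, min_eq_right (by omega)]
        have h5 := nu_down hn hmn (c l) hcl h1.le
        rcases Nat.eq_zero_or_pos (m * n - c l) with h0 | h0
        · have h6 : m * n - c (l + 1) = 0 := by omega
          rw [h0] at h2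
          rw [h6]
          push_cast at h2 ⊢
          linarith
        · have h6 := step_down hn (y := m * n - c l) (t := m * n - c (l + 1)) h0 (by omega)
          push_cast
          linarith
  rcases inv L le_rfl with ⟨h1, h2⟩ | ⟨h1, h2⟩
  · have h3 := joint hn hmn (s := 0) (y := c L) (by omega) h1 (Or.inl rfl) hh hh'
    rw [G_zero hn] at h3
    linarith
  · have h3 := G_ge hn (m * n - c L)
    linarith

end main

/-- **Result.** For all `m ≥ n ≥ 1`, every ν-chain on the `m × n` grid has weight at most the weight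
of the antidiagonal chain. -/
theorem result (m n : ℕ) (hn : 1 ≤ n) (hmn : n ≤ m) (L : ℕ) (c : ℕ → ℕ) (hc : IsNuChain m n L c) :
    weight m n L c ≤ weight m n (m + n - 2) (antidiagonal m n) := by
  have h1 := main hn hmn L c hc (h := (m + n - 1) / 2) (by omega) (by omega)
  have h2 := D_lower hn hmn (h := (m + n - 1) / 2) (by omega) (by omega)
  have h3 : (AA n ((m + n - 1) / 2) : ℤ) + (AA n (m + n - 2 - (m + n - 1) / 2) : ℤ) ≤
      (weight m n (m + n - 2) (antidiagonal m n) : ℤ) := by exact_mod_cast h2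
  have h4 : (weight m n L c : ℤ) ≤ (weight m n (m + n - 2) (antidiagonal m n) : ℤ) := by
    linarith
  exact_mod_cast h4

end Pool.Agent.Results.MP_00a158_co.AntidiagonalChain
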